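import Pool.Agent.D0H44.KC.Stm
import Pool.Agent.H343R2.Gauss

set_option autoImplicit false

/-! Project KC (helper44), module GS: the Gauss sums of all characters. -/

namespace Pool.Agent.D0H52.KC

open Finset H343 Pool.Agent.D0H44.KC

theorem gs_eq (q t : ℕ) [NeZero q] (χ : DirichletCharacter ℂ q) :
    gs q t χ = ∑ a : ZMod q, χ a * ZMod.stdAddChar ((t : ZMod q) * a) := by
  unfold gs
  rw [← H343.Gauss.sum_range_eq q (fun a => χ a * ZMod.stdAddChar ((t : ZMod q) * a))]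
  refine sum_congr rfl fun m _ => ?_
  have h := H343.Gauss.ex_eq_stdAddChar q (m * t)
  rw [h, Nat.cast_mul, mul_comm (m : ZMod q)]

theorem norm_unit (q : ℕ) [NeZero q] (χ : DirichletCharacter ℂ q) (u : (ZMod q)ˣ) :
    ‖∑ a : ZMod q, χ a * ZMod.stdAddChar ((u : ZMod q) * a)‖ =
      ‖gaussSum χ (ZMod.stdAddChar : AddChar (ZMod q) ℂ)‖ := by
  have h := gaussSum_mulShift χ (ZMod.stdAddChar : AddChar (ZMod q) ℂ) u
  rw [← h, norm_mul, χ.unit_norm_eq_one, one_mul]
  rfl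

theorem t_GS : S_GS := by
  intro q t χ hq ht
  have : NeZero q := ⟨by omega⟩
  have hu : IsUnit (t : ZMod q) := (ZMod.isUnit_iff_coprime t q).mpr ht
  have h2 : ‖gs q t χ‖ = ‖gaussSum χ (ZMod.stdAddChar : AddChar (ZMod q) ℂ)‖ := by
    rw [gs_eq]
    exact norm_unit q χ hu.unit
  rw [h2]
  have hφ : (0 : ℝ) < (Nat.totient q : ℝ) := by
    have := Nat.totient_pos.mpr (NeZero.pos q)
    positivity
  constructor
  · have h3 := Pool.Agent.Helper112.MLS.parseval q (fun a => χ a)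
    rw [Pool.Agent.Helper112.MLS.sum_norm_char] at h3
    have h4 : ∀ n : ZMod q, ‖χ n‖ ^ 2 *
        ‖gaussSum χ (ZMod.stdAddChar : AddChar (ZMod q) ℂ)‖ ^ 2 ≤
        ‖∑ a : ZMod q, χ a * ZMod.stdAddChar (n * a)‖ ^ 2 := by
      intro n
      by_cases hn : IsUnit n
      · obtain ⟨u, rfl⟩ := hn
        rw [norm_unit, χ.unit_norm_eq_one]
        simp
      · rw [χ.map_nonunit hn, norm_zero, zero_pow two_ne_zero, zero_mul]
        exact sq_nonneg _
    have h5 := sum_le_sum (fun n (_ : n ∈ (univ : Finset (ZMod q))) => h4 n)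
    rw [← sum_mul, Pool.Agent.Helper112.MLS.sum_norm_char, h3] at h5
    apply Real.le_sqrt_of_sq_le
    nlinarith
  · intro hχ
    rw [← Pool.Agent.Helper112.MLS.norm_gauss q hχ, Real.sqrt_sq (norm_nonneg _)]

end Pool.Agent.D0H52.KC
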