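import Pool.Agent.D0H44.KC.Stm
import Pool.Agent.H343R2.EH.BVLog

set_option autoImplicit false

/-! Project KC (helper44), module SW: the theorem of Siegel and Walfisz in integrated form. -/

namespace Pool.Agent.D0H52.KC

open Finset MeasureTheory Filter Topology
open Pool.Agent.H398R2.BV Pool.Agent.H410R2 Pool.Agent.D0H44.EL Pool.Agent.D0H44.FR
open Pool.Agent.D0H44.KC

theorem psi_triv (y : ℝ) (hy : 1 ≤ y) (f : ℕ) (ψ : DirichletCharacter ℂ f) :
    ‖psiLog y f ψ‖ ≤ y * Real.log y ^ 2 := by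
  have hl : 0 ≤ Real.log y := Real.log_nonneg hy
  unfold psiLog
  refine (norm_sum_le _ _).trans ?_
  have h1 : ∀ n ∈ Icc 1 ⌊y⌋₊, ‖((ArithmeticFunction.vonMangoldt n : ℝ) : ℂ) * ψ (n : ZMod f) *
      ((Real.log (y / n) : ℝ) : ℂ)‖ ≤ Real.log y ^ 2 := by
    intro n hn
    rw [mem_Icc] at hn
    have hn1 : (1 : ℝ) ≤ n := by exact_mod_cast hn.1
    have hny : (n : ℝ) ≤ y := (Nat.le_floor_iff (by linarith)).1 hn.2
    rw [norm_mul, norm_mul, Complex.norm_real, Complex.norm_real, Real.norm_eq_abs,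
      Real.norm_eq_abs, abs_of_nonneg ArithmeticFunction.vonMangoldt_nonneg]
    have h2 : ArithmeticFunction.vonMangoldt n ≤ Real.log y :=
      ArithmeticFunction.vonMangoldt_le_log.trans (Real.log_le_log (by linarith) hny)
    have h3 : ‖ψ (n : ZMod f)‖ ≤ 1 := ψ.norm_le_one _
    have h4 : |Real.log (y / n)| ≤ Real.log y := by
      rw [abs_of_nonneg (Real.log_nonneg (by rw [le_div_iff₀ (by linarith)]; linarith))]
      apply Real.log_le_log (by positivity)
      exact div_le_self (by linarith) hn1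
    have h5 : ArithmeticFunction.vonMangoldt n * ‖ψ (n : ZMod f)‖ ≤ Real.log y * 1 :=
      mul_le_mul h2 h3 (norm_nonneg _) hl
    calc _ ≤ (Real.log y * 1) * Real.log y :=
          mul_le_mul h5 h4 (abs_nonneg _) (by positivity)
      _ = _ := by ring
  refine (sum_le_sum h1).trans ?_
  rw [sum_const, Nat.card_Icc, Nat.add_sub_cancel, nsmul_eq_mul]
  exact mul_le_mul_of_nonneg_right (Nat.floor_le (by linarith)) (by positivity)

theorem II_le (Y T : ℝ) (hT : 1 ≤ T) (hTY : T ≤ Y) (f : ℕ) (ψ : DirichletCharacter ℂ f)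
    (B1 B2 : ℝ) (hB1 : 0 ≤ B1) (hB2 : 0 ≤ B2)
    (h1 : ∀ y, 1 ≤ y → y ≤ T → ‖psiLog y f ψ‖ ≤ B1 * y)
    (h2 : ∀ y, T ≤ y → y ≤ Y → ‖psiLog y f ψ‖ ≤ B2 * y) :
    Pool.Agent.D0H44.FR.II Y f ψ ≤ B1 * T + B2 * Y := by
  have hY : 1 ≤ Y := hT.trans hTY
  have hcont : ContinuousOn (fun y => ‖PG ⌊Y⌋₊ f ψ y‖ / y) (Set.Ici 1) := by
    apply ContinuousOn.div (PG_cont _ _ _).norm continuousOn_id
    intro x hx
    have : (1 : ℝ) ≤ x := hx
    simp only [id]
    linarith
  have hi : ∀ a b : ℝ, 1 ≤ a → 1 ≤ b →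
      IntervalIntegrable (fun y => ‖PG ⌊Y⌋₊ f ψ y‖ / y) volume a b := by
    intro a b ha hb
    apply ContinuousOn.intervalIntegrable
    apply hcont.mono
    intro x hx
    rw [Set.mem_uIcc] at hx
    change 1 ≤ x
    rcases hx with hx | hx
    · exact ha.trans hx.1
    · exact hb.trans hx.1
  have hk : ∀ (a b B : ℝ), 1 ≤ a → a ≤ b → b ≤ Y → 0 ≤ B →
      (∀ y, a ≤ y → y ≤ b → ‖psiLog y f ψ‖ ≤ B * y) →
      ∫ y in a..b, ‖PG ⌊Y⌋₊ f ψ y‖ / y ≤ B * b := by
    intro a b B ha hab hbY hB h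
    have h3 : ∫ y in a..b, ‖PG ⌊Y⌋₊ f ψ y‖ / y ≤ ∫ _y in a..b, B := by
      apply intervalIntegral.integral_mono_on hab (hi a b ha (ha.trans hab))
        intervalIntegrable_const
      intro y hy
      have hy1 : 1 ≤ y := ha.trans hy.1
      have hy0 : 0 < y := by linarith
      rw [div_le_iff₀ hy0, ← PG_eq ⌊Y⌋₊ f ψ y hy0 (Nat.floor_mono (hy.2.trans hbY))]
      exact h y hy.1 hy.2
    refine h3.trans ?_
    rw [intervalIntegral.integral_const, smul_eq_mul]
    nlinarith
  unfold Pool.Agent.D0H44.FR.II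
  rw [← intervalIntegral.integral_add_adjacent_intervals (hi 1 T le_rfl hT) (hi T Y hT hY)]
  exact add_le_add (hk 1 T B1 le_rfl hT hTY hB1 h1) (hk T Y B2 hT hTY le_rfl hB2 h2)

theorem t_SW : S_SW := by
  intro A B
  obtain ⟨y0, hy0⟩ := H343E.sw (A + 1) (B + 1)
  have hlim : ∀ᶠ x : ℝ in atTop, ‖Real.log x ^ (A + 2)‖ ≤ 1 / 2 * ‖x ^ (1 / 2 : ℝ)‖ := by
    have h2 := (isLittleO_log_rpow_atTop (r := (1 / 2 : ℝ) / (A + 2)) (by positivity)).pow
      (n := A + 2) (by omega)
    have h3 := h2.bound (c := 1 / 2) (by norm_num)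
    filter_upwards [h3, eventually_ge_atTop 1] with x hx hx1
    refine hx.trans (le_of_eq ?_)
    congr 2
    rw [← Real.rpow_natCast, ← Real.rpow_mul (by linarith)]
    congr 1
    push_cast
    field_simp
  obtain ⟨x1, hx1⟩ := eventually_atTop.mp hlim
  have hlog : ∀ᶠ x : ℝ in atTop, (2 : ℝ) ^ (A + 3) + 2 ^ (B + 1) ≤ Real.log x :=
    Real.tendsto_log_atTop.eventually_ge_atTop _
  obtain ⟨x2, hx2⟩ := eventually_atTop.mp hlog
  refine ⟨max (max x1 x2) (max 4 (y0 ^ 2)), fun x hx f hf hfx ψ hψ => ?_⟩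
  have hxa : x1 ≤ x := (le_max_left _ _).trans ((le_max_left _ _).trans hx)
  have hxb : x2 ≤ x := (le_max_right _ _).trans ((le_max_left _ _).trans hx)
  have hxc : 4 ≤ x := (le_max_left _ _).trans ((le_max_right _ _).trans hx)
  have hxd : y0 ^ 2 ≤ x := (le_max_right _ _).trans ((le_max_right _ _).trans hx)
  have hL := hx2 x hxb
  have hp1 : (0 : ℝ) < (2 : ℝ) ^ (A + 3) := by positivity
  have hp2 : (0 : ℝ) < (2 : ℝ) ^ (B + 1) := by positivity
  have hL0 : 0 < Real.log x := by linarith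
  have hx0 : 0 < x := by linarith
  have hs1 : 1 ≤ Real.sqrt x := Real.one_le_sqrt.mpr (by linarith)
  have hsx : Real.sqrt x ≤ x := by
    rw [Real.sqrt_le_left (by linarith)]
    nlinarith
  have hss : Real.sqrt x * Real.sqrt x = x := Real.mul_self_sqrt hx0.le
  have hprim : ψ.IsPrimitive := by
    classical
    unfold Prim at hψ
    exact (Finset.mem_filter.mp hψ).2
  have h1 := II_le (2 * x) (Real.sqrt x) hs1 (by linarith) f ψ (Real.log x ^ 2)
    (2 ^ (A + 1) / Real.log x ^ (A + 1)) (by positivity) (by positivity) (by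
      intro y hy hyx
      refine (psi_triv y hy f ψ).trans ?_
      rw [mul_comm]
      apply mul_le_mul_of_nonneg_right _ (by linarith)
      apply pow_le_pow_left₀ (Real.log_nonneg hy)
      exact Real.log_le_log (by linarith) (hyx.trans hsx)) (by
      intro y hy hyx
      have hy1 : 1 ≤ y := hs1.trans hy
      have hly : Real.log x / 2 ≤ Real.log y := by
        rw [← Real.log_sqrt hx0.le]
        exact Real.log_le_log (by linarith) hy
      have hyy : y0 ≤ y := by
        refine (Real.le_sqrt_of_sq_le hxd).trans hy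
      have hfy : (f : ℝ) ≤ Real.log y ^ (B + 1) := by
        refine hfx.trans ?_
        calc Real.log x ^ B ≤ (Real.log x / 2) ^ (B + 1) := by
              rw [div_pow, le_div_iff₀ hp2, pow_succ (Real.log x)]
              apply mul_le_mul_of_nonneg_left _ (by positivity)
              linarith
          _ ≤ _ := pow_le_pow_left₀ (by positivity) hly _
      refine (hy0 y hyy f (by omega) hfy ψ hprim).trans ?_
      calc y / Real.log y ^ (A + 1) ≤ y / (Real.log x / 2) ^ (A + 1) := by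
            apply div_le_div_of_nonneg_left (by linarith) (by positivity)
            exact pow_le_pow_left₀ (by positivity) hly _
        _ = _ := by
            rw [div_pow]
            field_simp)
  refine h1.trans ?_
  have h2 := hx1 x hxa
  rw [Real.norm_eq_abs, Real.norm_eq_abs, abs_of_nonneg (by positivity),
    abs_of_nonneg (by positivity), ← Real.sqrt_eq_rpow] at h2
  have hLA : 0 < Real.log x ^ A := by positivity
  have h3 : Real.log x ^ 2 * Real.sqrt x ≤ 1 / 2 * (x / Real.log x ^ A) := by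
    rw [← mul_div_assoc, le_div_iff₀ hLA]
    calc Real.log x ^ 2 * Real.sqrt x * Real.log x ^ A = Real.log x ^ (A + 2) * Real.sqrt x := by
          ring
      _ ≤ (1 / 2 * Real.sqrt x) * Real.sqrt x :=
          mul_le_mul_of_nonneg_right h2 (Real.sqrt_nonneg _)
      _ = 1 / 2 * x := by rw [mul_assoc, hss]
  have h4 : 2 ^ (A + 1) / Real.log x ^ (A + 1) * (2 * x) ≤ 1 / 2 * (x / Real.log x ^ A) := by
    rw [pow_succ (Real.log x), ← mul_div_assoc, div_mul_eq_mul_div,
      div_le_div_iff₀ (by positivity) hLA]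
    have h5 : (2 : ℝ) ^ (A + 3) = 4 * 2 ^ (A + 1) := by ring
    have h6 : 4 * (2 : ℝ) ^ (A + 1) ≤ Real.log x := by linarith
    have h7 : 0 < x * Real.log x ^ A := by positivity
    nlinarith
  linarith

end Pool.Agent.D0H52.KC
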